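import Pool.Agent.H75.Brouwer.NoRetraction

/-!
Consequences of the non-retraction theorem: zeros of outward vector fields on balls,
Brouwer's fixed point theorem on balls and on compact convex sets, the Poincare-Miranda theorem.
-/

open Set Metric Topology
open scoped RealInnerProductSpace

namespace Pool.Agent.H75.Brouwer

noncomputable section

set_option linter.unusedSectionVars false

variable {E : Type*} [NormedAddCommGroup E] [InnerProductSpace ℝ E] [FiniteDimensional ℝ E]

/-- A `C¹` vector field on the closed unit ball, pointing strictly outward on the sphere,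
has a zero. -/
theorem exists_zero_of_contDiff (v : E → E) (hv : ContDiff ℝ 1 v)
    (hS : ∀ x ∈ sphere (0:E) 1, 0 < ⟪v x, x⟫) : ∃ x ∈ closedBall (0:E) 1, v x = 0 := by
  by_contra hno
  push Not at hno
  -- discriminant
  let D : E → ℝ := fun x => ⟪v x, x⟫ ^ 2 + ‖v x‖ ^ 2 * (1 - ‖x‖ ^ 2)
  let s : E → ℝ := fun x => (-⟪v x, x⟫ + Real.sqrt (D x)) / ‖v x‖ ^ 2
  let f : E → E := fun x => x + s x • v x
  let U : Set E := {x | v x ≠ 0 ∧ 0 < D x}
  have hDc : ContDiff ℝ 1 D := by
    refine ((hv.inner ℝ contDiff_id).pow 2).add ?_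
    exact (hv.norm_sq ℝ).mul (contDiff_const.sub (contDiff_id.norm_sq ℝ))
  have hU : IsOpen U := (isOpen_ne_fun hv.continuous continuous_const).inter
    (isOpen_lt continuous_const hDc.continuous)
  have hKU : closedBall (0:E) 1 ⊆ U := by
    intro x hx
    refine ⟨hno x hx, ?_⟩
    have h1 : 0 < ‖v x‖ := norm_pos_iff.2 (hno x hx)
    rw [mem_closedBall_zero_iff] at hx
    rcases hx.lt_or_eq with h | h
    · have h2 : 0 < 1 - ‖x‖ ^ 2 := by nlinarith [norm_nonneg x]
      have h3 : 0 < ‖v x‖ ^ 2 * (1 - ‖x‖ ^ 2) := by positivity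
      have h4 := sq_nonneg ⟪v x, x⟫
      simp only [D]
      linarith
    · have h2 := hS x (by rwa [mem_sphere_zero_iff_norm])
      simp only [D]
      rw [h]
      have : 0 < ⟪v x, x⟫ ^ 2 := by positivity
      linarith
  have hfU : ContDiffOn ℝ 1 f U := by
    have hs : ContDiffOn ℝ 1 s U := by
      refine ContDiffOn.div ?_ ?_ ?_
      · refine ((hv.inner ℝ contDiff_id).neg).contDiffOn.add ?_
        exact hDc.contDiffOn.sqrt fun x hx => hx.2.ne'
      · exact (hv.norm_sq ℝ).contDiffOn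
      · intro x hx
        exact pow_ne_zero _ (norm_ne_zero_iff.2 hx.1)
    exact contDiffOn_id.add (hs.smul hv.contDiffOn)
  refine no_C1_retraction f U hU hKU hfU ?_ ?_
  · intro x hx
    obtain ⟨h1, h2⟩ := hKU hx
    have hn : ‖v x‖ ^ 2 ≠ 0 := pow_ne_zero _ (norm_ne_zero_iff.2 h1)
    have hsq : Real.sqrt (D x) ^ 2 = D x := Real.sq_sqrt h2.le
    have key : ‖f x‖ ^ 2 = 1 := by
      have e : ‖f x‖ ^ 2 = ‖x‖ ^ 2 + 2 * s x * ⟪v x, x⟫ + s x ^ 2 * ‖v x‖ ^ 2 := by
        simp only [f]
        rw [norm_add_sq_real, inner_smul_right, norm_smul, mul_pow, Real.norm_eq_abs, sq_abs,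
          real_inner_comm]
        ring
      rw [e]
      have hs' : s x * ‖v x‖ ^ 2 = -⟪v x, x⟫ + Real.sqrt (D x) := by
        simp only [s]; field_simp
      have h3 : (s x * ‖v x‖ ^ 2) * (s x * ‖v x‖ ^ 2) + 2 * (s x * ‖v x‖ ^ 2) * ⟪v x, x⟫
          = ‖v x‖ ^ 2 * (1 - ‖x‖ ^ 2) := by
        rw [hs']
        have : D x = ⟪v x, x⟫ ^ 2 + ‖v x‖ ^ 2 * (1 - ‖x‖ ^ 2) := rfl
        nlinarith [hsq]
      have h4 : ‖v x‖ ^ 2 * (‖x‖ ^ 2 + 2 * s x * ⟪v x, x⟫ + s x ^ 2 * ‖v x‖ ^ 2)
          = ‖v x‖ ^ 2 * 1 := by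
        linear_combination h3
      exact mul_left_cancel₀ hn h4
    have h0 := norm_nonneg (f x)
    nlinarith
  · intro x hx
    have h1 := hS x hx
    have h2 : D x = ⟪v x, x⟫ ^ 2 := by
      simp only [D]
      rw [mem_sphere_zero_iff_norm.1 hx]; ring
    have h3 : s x = 0 := by
      simp only [s]
      rw [h2, Real.sqrt_sq h1.le]
      simp
    simp only [f]
    rw [h3, zero_smul, add_zero]

/-- The radial projection to the closed unit ball. -/
def clip (x : E) : E := (max 1 ‖x‖)⁻¹ • x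

lemma continuous_clip : Continuous (clip : E → E) := by
  refine Continuous.smul ?_ continuous_id
  refine (continuous_const.max continuous_norm).inv₀ fun x => ?_
  exact (lt_of_lt_of_le one_pos (le_max_left _ _)).ne'

lemma clip_mem (x : E) : clip x ∈ closedBall (0:E) 1 := by
  rw [mem_closedBall_zero_iff, clip, norm_smul, norm_inv]
  have h : 0 < max 1 ‖x‖ := lt_of_lt_of_le one_pos (le_max_left _ _)
  rw [Real.norm_of_nonneg h.le, inv_mul_le_iff₀ h, mul_one]
  exact le_max_right _ _

lemma clip_of_mem {x : E} (hx : x ∈ closedBall (0:E) 1) : clip x = x := by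
  rw [mem_closedBall_zero_iff] at hx
  rw [clip, max_eq_left hx, inv_one, one_smul]

/-- A continuous vector field on the closed unit ball pointing strictly outward on the sphere
has a zero in the ball. -/
theorem exists_zero_unit (Ψ : E → E) (hΨ : ContinuousOn Ψ (closedBall (0:E) 1))
    (hS : ∀ x ∈ sphere (0:E) 1, 0 < ⟪Ψ x, x⟫) : ∃ x ∈ closedBall (0:E) 1, Ψ x = 0 := by
  by_contra hno
  push Not at hno
  let G : E → E := fun x => Ψ (clip x)
  have hG : Continuous G := hΨ.comp_continuous continuous_clip clip_mem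
  have hGK : ∀ x ∈ closedBall (0:E) 1, G x = Ψ x := fun x hx => by
    simp only [G]; rw [clip_of_mem hx]
  -- lower bounds
  obtain ⟨m, hm, hmle⟩ : ∃ m : ℝ, 0 < m ∧ ∀ x ∈ closedBall (0:E) 1, m ≤ ‖G x‖ := by
    obtain ⟨x0, hx0, hx0m⟩ := (isCompact_closedBall (0:E) 1).exists_isMinOn
      ⟨0, mem_closedBall_self zero_le_one⟩ hG.norm.continuousOn
    refine ⟨‖G x0‖, ?_, fun x hx => hx0m hx⟩
    rw [hGK x0 hx0]
    exact norm_pos_iff.2 (hno x0 hx0)
  obtain ⟨m', hm', hm'le⟩ : ∃ m : ℝ, 0 < m ∧ ∀ x ∈ sphere (0:E) 1, m ≤ ⟪G x, x⟫ := by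
    by_cases hne : (sphere (0:E) 1).Nonempty
    · obtain ⟨x0, hx0, hx0m⟩ := (isCompact_sphere (0:E) 1).exists_isMinOn hne
        (Continuous.inner (𝕜 := ℝ) hG continuous_id).continuousOn
      refine ⟨⟪G x0, x0⟫, ?_, fun x hx => hx0m hx⟩
      rw [hGK x0 (sphere_subset_closedBall hx0)]
      exact hS x0 hx0
    · exact ⟨1, one_pos, fun x hx => absurd ⟨x, hx⟩ hne⟩
  obtain ⟨v, hv, hvG, -⟩ := hG.exists_contDiff_approx 1
    (ε := fun _ => min m m') continuous_const (fun _ => lt_min hm hm')
  obtain ⟨x, hx, hx0⟩ := exists_zero_of_contDiff v hv (by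
    intro x hx
    have h1 := hm'le x hx
    have h2 : ‖v x - G x‖ < m' := by
      have := hvG x
      rw [dist_eq_norm] at this
      exact this.trans_le (min_le_right _ _)
    have h3 : |⟪v x - G x, x⟫| ≤ ‖v x - G x‖ * ‖x‖ := abs_real_inner_le_norm _ _
    rw [mem_sphere_zero_iff_norm.1 hx, mul_one, inner_sub_left] at h3
    have := (abs_le.1 h3).1
    linarith)
  have h1 := hmle x hx
  have h2 := hvG x
  rw [hx0, dist_eq_norm, zero_sub, norm_neg] at h2
  exact absurd (h2.trans_le (min_le_left _ _)) (not_lt.2 h1)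

/-- Same with a weak inequality. -/
theorem exists_zero_unit' (Ψ : E → E) (hΨ : ContinuousOn Ψ (closedBall (0:E) 1))
    (hS : ∀ x ∈ sphere (0:E) 1, 0 ≤ ⟪Ψ x, x⟫) : ∃ x ∈ closedBall (0:E) 1, Ψ x = 0 := by
  by_contra hno
  push Not at hno
  obtain ⟨x0, hx0, hx0m⟩ := (isCompact_closedBall (0:E) 1).exists_isMinOn
    ⟨0, mem_closedBall_self zero_le_one⟩ hΨ.norm
  have hm : 0 < ‖Ψ x0‖ := norm_pos_iff.2 (hno x0 hx0)
  obtain ⟨x, hx, hx0'⟩ := exists_zero_unit (fun x => Ψ x + (‖Ψ x0‖ / 2) • x)
    (hΨ.add ((continuous_id.const_smul (‖Ψ x0‖ / 2)).continuousOn)) (by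
      intro x hx
      rw [inner_add_left, inner_smul_left, real_inner_self_eq_norm_sq,
        mem_sphere_zero_iff_norm.1 hx]
      have := hS x hx
      simp
      positivity)
  have h1 : ‖Ψ x0‖ ≤ ‖Ψ x‖ := hx0m hx
  have h2 : Ψ x = - ((‖Ψ x0‖ / 2) • x) := eq_neg_of_add_eq_zero_left hx0'
  rw [h2, norm_neg, norm_smul, Real.norm_of_nonneg (by positivity)] at h1
  rw [mem_closedBall_zero_iff] at hx
  nlinarith

/-- **Zeros of outward fields** on a ball of radius `R` around `c`. -/
theorem exists_zero (c : E) {R : ℝ} (hR : 0 < R) (Ψ : E → E)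
    (hΨ : ContinuousOn Ψ (closedBall c R))
    (hS : ∀ x ∈ sphere c R, 0 ≤ ⟪Ψ x, x - c⟫) : ∃ x ∈ closedBall c R, Ψ x = 0 := by
  let φ : E → E := fun x => c + R • x
  have hφ : Continuous φ := continuous_const.add (continuous_id.const_smul R)
  have hmaps : MapsTo φ (closedBall (0:E) 1) (closedBall c R) := by
    intro x hx
    rw [mem_closedBall_zero_iff] at hx
    rw [mem_closedBall, dist_eq_norm]
    simp only [φ, add_sub_cancel_left]
    rw [norm_smul, Real.norm_of_nonneg hR.le]
    nlinarith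
  obtain ⟨x, hx, hx0⟩ := exists_zero_unit' (fun x => Ψ (φ x)) (hΨ.comp hφ.continuousOn hmaps) (by
    intro x hx
    have h1 : φ x ∈ sphere c R := by
      rw [mem_sphere, dist_eq_norm]
      simp only [φ, add_sub_cancel_left]
      rw [norm_smul, Real.norm_of_nonneg hR.le, mem_sphere_zero_iff_norm.1 hx, mul_one]
    have h2 := hS _ h1
    have h3 : φ x - c = R • x := by simp [φ]
    rw [h3, inner_smul_right] at h2
    exact nonneg_of_mul_nonneg_right h2 hR)
  exact ⟨φ x, hmaps hx, hx0⟩

/-- The nearest point map to a compact convex set exists and is continuous. -/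
theorem exists_proj {K : Set E} (hK : IsCompact K) (hc : Convex ℝ K) (hne : K.Nonempty) :
    ∃ p : E → E, Continuous p ∧ (∀ x, p x ∈ K) ∧ ∀ x ∈ K, p x = x := by
  have hex : ∀ u : E, ∃ v ∈ K, ∀ w ∈ K, ⟪u - v, w - v⟫ ≤ 0 := by
    intro u
    obtain ⟨v, hv, hveq⟩ := exists_norm_eq_iInf_of_complete_convex hne hK.isComplete hc u
    exact ⟨v, hv, (norm_eq_iInf_iff_real_inner_le_zero hc hv).1 hveq⟩
  choose p hpK hp using hex
  refine ⟨p, ?_, hpK, ?_⟩
  · have : LipschitzWith 1 p := by
      refine LipschitzWith.of_dist_le_mul fun x y => ?_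
      rw [dist_eq_norm, dist_eq_norm, NNReal.coe_one, one_mul]
      have h1 := hp x (p y) (hpK y)
      have h2 := hp y (p x) (hpK x)
      have h3 : ‖p x - p y‖ ^ 2 ≤ ⟪x - y, p x - p y⟫ := by
        have e : ⟪x - y, p x - p y⟫ - ‖p x - p y‖ ^ 2
            = -⟪x - p x, p y - p x⟫ - ⟪y - p y, p x - p y⟫ := by
          rw [← real_inner_self_eq_norm_sq]
          simp only [inner_sub_left, inner_sub_right]
          ring
        linarith
      have h4 := real_inner_le_norm (x - y) (p x - p y)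
      rcases (norm_nonneg (p x - p y)).eq_or_lt with h | h
      · rw [← h]; exact norm_nonneg _
      · nlinarith
    exact this.continuous
  · intro x hx
    have h := hp x x hx
    rw [real_inner_self_eq_norm_sq] at h
    have : ‖x - p x‖ = 0 := by
      have := norm_nonneg (x - p x)
      nlinarith
    exact (sub_eq_zero.1 (norm_eq_zero.1 this)).symm

/-- **Brouwer's fixed point theorem** for compact convex sets in a finite-dimensional real
inner product space. -/
theorem brouwer_inner {K : Set E} (hK : IsCompact K) (hc : Convex ℝ K) (hne : K.Nonempty)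
    (f : E → E) (hf : ContinuousOn f K) (hmaps : MapsTo f K K) : ∃ x ∈ K, f x = x := by
  obtain ⟨p, hpc, hpK, hp⟩ := exists_proj hK hc hne
  obtain ⟨R, hR⟩ := hK.isBounded.subset_closedBall (0:E)
  have hfp : Continuous fun x => f (p x) := hf.comp_continuous hpc hpK
  have hR1 : (0:ℝ) < max R 1 := lt_of_lt_of_le one_pos (le_max_right _ _)
  obtain ⟨x, hx, hx0⟩ := exists_zero (0:E) hR1
    (fun x => x - f (p x)) (continuous_id.sub hfp).continuousOn (by
      intro x hx
      rw [sub_zero, inner_sub_left, real_inner_self_eq_norm_sq, mem_sphere_zero_iff_norm.1 hx]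
      have h1 : ‖f (p x)‖ ≤ max R 1 :=
        (mem_closedBall_zero_iff.1 (hR (hmaps (hpK x)))).trans (le_max_left _ _)
      have h2 := real_inner_le_norm (f (p x)) x
      rw [mem_sphere_zero_iff_norm.1 hx] at h2
      have h3 : ‖f (p x)‖ * max R 1 ≤ max R 1 * max R 1 := by gcongr
      nlinarith)
  have h1 : x = f (p x) := sub_eq_zero.1 hx0
  have h2 : x ∈ K := by rw [h1]; exact hmaps (hpK x)
  refine ⟨x, h2, ?_⟩
  rw [hp x h2] at h1
  exact h1.symm

/-- **Brouwer's fixed point theorem** for compact convex sets in a finite-dimensional real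
normed space. -/
theorem brouwer {F : Type*} [NormedAddCommGroup F] [NormedSpace ℝ F] [FiniteDimensional ℝ F]
    {K : Set F} (hK : IsCompact K) (hc : Convex ℝ K) (hne : K.Nonempty)
    (f : F → F) (hf : ContinuousOn f K) (hmaps : MapsTo f K K) : ∃ x ∈ K, f x = x := by
  let e : F ≃L[ℝ] EuclideanSpace ℝ (Fin (Module.finrank ℝ F)) := toEuclidean
  have hmem : ∀ y ∈ e '' K, e.symm y ∈ K := by
    rintro _ ⟨x, hx, rfl⟩
    simpa using hx
  obtain ⟨y, hy, hy0⟩ := brouwer_inner (K := e '' K) (hK.image e.continuous)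
    (hc.linear_image (e : F →L[ℝ] EuclideanSpace ℝ (Fin (Module.finrank ℝ F))).toLinearMap)
    (hne.image _) (fun y => e (f (e.symm y)))
    (e.continuous.comp_continuousOn (hf.comp e.symm.continuous.continuousOn hmem))
    (fun y hy => mem_image_of_mem _ (hmaps (hmem y hy)))
  refine ⟨e.symm y, hmem y hy, ?_⟩
  apply e.injective
  rw [hy0, e.apply_symm_apply]

/-- **The Poincare-Miranda theorem.** -/
theorem poincare_miranda {ι : Type*} [Fintype ι] (a b : ι → ℝ) (hab : a ≤ b)
    (f : (ι → ℝ) → (ι → ℝ)) (hf : ContinuousOn f (Icc a b))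
    (ha : ∀ x ∈ Icc a b, ∀ i, x i = a i → f x i ≤ 0)
    (hb : ∀ x ∈ Icc a b, ∀ i, x i = b i → 0 ≤ f x i) : ∃ x ∈ Icc a b, f x = 0 := by
  let T : (ι → ℝ) → (ι → ℝ) := fun x i => max (a i) (min (b i) (x i - f x i))
  have hT : ContinuousOn T (Icc a b) := by
    refine continuousOn_pi.2 fun i => ?_
    have h1 : ContinuousOn (fun x : ι → ℝ => x i - f x i) (Icc a b) :=
      ((continuous_apply i).continuousOn).sub ((continuousOn_pi.1 hf) i)
    exact ContinuousOn.sup continuousOn_const (ContinuousOn.inf continuousOn_const h1)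
  have hmaps : MapsTo T (Icc a b) (Icc a b) := by
    intro x _
    refine ⟨fun i => le_max_left _ _, fun i => max_le (hab i) (min_le_left _ _)⟩
  obtain ⟨x, hx, hx0⟩ := brouwer isCompact_Icc (convex_Icc a b) ⟨a, le_rfl, hab⟩ T hT hmaps
  refine ⟨x, hx, funext fun i => ?_⟩
  have h1 : max (a i) (min (b i) (x i - f x i)) = x i := congrFun hx0 i
  have hxa := hx.1 i
  have hxb := hx.2 i
  rcases lt_trichotomy (f x i) 0 with h | h | h
  · -- then `x i = b i`
    have h2 : x i = b i := by
      rcases max_choice (a i) (min (b i) (x i - f x i)) with h3 | h3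
      · rw [h3] at h1
        have h4 : min (b i) (x i - f x i) ≤ a i := by
          rw [← h3]; exact le_max_right _ _
        rcases min_le_iff.1 h4 with h5 | h5
        · linarith
        · linarith
      · rw [h3] at h1
        rcases min_choice (b i) (x i - f x i) with h4 | h4
        · rw [h4] at h1; exact h1.symm
        · rw [h4] at h1; linarith
    exact absurd (hb x hx i h2) (not_le.2 h)
  · exact h
  · have h2 : x i = a i := by
      rcases max_choice (a i) (min (b i) (x i - f x i)) with h3 | h3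
      · rw [h3] at h1; exact h1.symm
      · rw [h3] at h1
        have h4 : min (b i) (x i - f x i) ≤ x i - f x i := min_le_right _ _
        linarith
    exact absurd (ha x hx i h2) (not_le.2 h)

/-- There is no continuous retraction of a ball onto its boundary sphere. -/
theorem no_retraction (f : E → E) (hf : ContinuousOn f (closedBall (0:E) 1))
    (hS : ∀ x ∈ closedBall (0:E) 1, f x ∈ sphere (0:E) 1)
    (hid : ∀ x ∈ sphere (0:E) 1, f x = x) : False := by
  obtain ⟨x, hx, hx0⟩ := exists_zero_unit' f hf (fun x hx => by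
    rw [hid x hx]; exact real_inner_self_nonneg)
  have := hS x hx
  rw [hx0, mem_sphere_zero_iff_norm, norm_zero] at this
  exact zero_ne_one this

end

end Pool.Agent.H75.Brouwer
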