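import Mathlib

/-!
Brouwer-type theorems for finite-dimensional real inner product spaces, by the method of
Milnor and Rogers: the volume of the image of the ball under `x + t • g x` is a polynomial in `t`.
-/

open Set Metric MeasureTheory Topology Polynomial
open scoped RealInnerProductSpace ENNReal

namespace Pool.Agent.H75.Brouwer

noncomputable section

variable {E : Type*} [NormedAddCommGroup E] [InnerProductSpace ℝ E] [FiniteDimensional ℝ E]

/-- `det (1 + t A)` is a polynomial in `t` of degree at most the dimension. -/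
lemma exists_poly (A : E →L[ℝ] E) :
    ∃ q : ℝ[X], q.natDegree ≤ Module.finrank ℝ E ∧
      ∀ t : ℝ, (ContinuousLinearMap.id ℝ E + t • A).det = q.eval t := by
  classical
  let b := Module.finBasis ℝ E
  let M : Matrix (Fin (Module.finrank ℝ E)) (Fin (Module.finrank ℝ E)) ℝ :=
    LinearMap.toMatrix b b (A : E →ₗ[ℝ] E)
  refine ⟨((X : ℝ[X]) • M.map C + (1 : Matrix _ _ ℝ).map C).det, ?_, ?_⟩
  · simpa using natDegree_det_X_add_C_le M 1
  · intro t
    have h1 : (ContinuousLinearMap.id ℝ E + t • A).det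
        = (1 + t • M).det := by
      rw [ContinuousLinearMap.det, ← LinearMap.det_toMatrix b]
      congr 1
      have : ((ContinuousLinearMap.id ℝ E + t • A : E →L[ℝ] E) : E →ₗ[ℝ] E)
          = LinearMap.id + t • (A : E →ₗ[ℝ] E) := by
        ext x; simp
      rw [this, map_add, map_smul, LinearMap.toMatrix_id]
    rw [h1, ← coe_evalRingHom, RingHom.map_det]
    congr 1
    ext i j
    simp only [RingHom.mapMatrix_apply, Matrix.map_apply, Matrix.add_apply, Matrix.smul_apply,
      coe_evalRingHom, eval_add, smul_eq_mul, eval_mul, eval_X, eval_C]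
    rw [add_comm]

/-- Interpolation: the determinant at `t = 1` is a fixed combination of the ones at
small parameters. -/
lemma exists_interp (δ : ℝ) (hδ : 0 < δ) (n : ℕ) :
    ∃ (τ c : Fin (n + 1) → ℝ), (∀ i, 0 < τ i ∧ τ i < δ) ∧ ∑ i, c i = 1 ∧
      ∀ q : ℝ[X], q.natDegree ≤ n → q.eval 1 = ∑ i, c i * q.eval (τ i) := by
  classical
  let τ : Fin (n + 1) → ℝ := fun i => δ * ((i : ℝ) + 1) / (n + 2)
  have hτ : Function.Injective τ := by
    intro i j h
    simp only [τ] at h
    have h2 : (0:ℝ) < n + 2 := by positivity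
    rw [div_left_inj' h2.ne', mul_right_inj' hδ.ne'] at h
    exact Fin.ext (by exact_mod_cast add_right_cancel h)
  refine ⟨τ, fun i => (Lagrange.basis Finset.univ τ i).eval 1, ?_, ?_, ?_⟩
  · intro i
    have h2 : (0:ℝ) < n + 2 := by positivity
    refine ⟨by positivity, ?_⟩
    simp only [τ]
    rw [div_lt_iff₀ h2]
    have : ((i : ℕ) : ℝ) + 1 ≤ n + 1 := by
      have := i.2
      exact_mod_cast this
    nlinarith
  · have := Lagrange.sum_basis (s := (Finset.univ : Finset (Fin (n + 1)))) (v := τ)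
      hτ.injOn Finset.univ_nonempty
    have h := congrArg (eval (1:ℝ)) this
    rw [eval_finsetSum] at h
    simpa using h
  · intro q hq
    have hdeg : q.degree < (Finset.univ : Finset (Fin (n + 1))).card := by
      rw [Finset.card_univ, Fintype.card_fin]
      refine lt_of_le_of_lt degree_le_natDegree ?_
      exact_mod_cast Nat.lt_succ_of_le hq
    have h := Lagrange.eq_interpolate (s := Finset.univ) (v := τ) hτ.injOn hdeg
    have h2 := congrArg (eval (1:ℝ)) h
    rw [h2, Lagrange.interpolate_apply, eval_finsetSum]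
    refine Finset.sum_congr rfl fun i _ => ?_
    rw [eval_mul, eval_C, mul_comm]

lemma det_pos_of_norm_lt (A : E →L[ℝ] E) (hA : ‖A‖ < 1) :
    0 < (ContinuousLinearMap.id ℝ E + A).det := by
  -- the path `1 + s A` never has determinant zero
  have hne : ∀ s ∈ Icc (0:ℝ) 1, (ContinuousLinearMap.id ℝ E + s • A).det ≠ 0 := by
    intro s hs h0
    have hinj : Function.Injective (ContinuousLinearMap.id ℝ E + s • A) := by
      rw [injective_iff_map_eq_zero]
      intro x hx
      by_contra hx0
      have h1 : x = - (s • A x) := by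
        have : x + s • A x = 0 := by simpa using hx
        exact eq_neg_of_add_eq_zero_left this
      have h2 : ‖x‖ ≤ ‖A‖ * ‖x‖ := by
        calc ‖x‖ = ‖-(s • A x)‖ := congrArg _ h1
          _ = ‖s • A x‖ := norm_neg _
          _ = |s| * ‖A x‖ := by rw [norm_smul, Real.norm_eq_abs]
          _ ≤ 1 * (‖A‖ * ‖x‖) := by
              refine mul_le_mul ?_ (A.le_opNorm x) (norm_nonneg _) zero_le_one
              rw [abs_of_nonneg hs.1]; exact hs.2
          _ = ‖A‖ * ‖x‖ := one_mul _
      have hx' : 0 < ‖x‖ := norm_pos_iff.2 hx0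
      nlinarith
    have hunit : IsUnit ((ContinuousLinearMap.id ℝ E + s • A : E →L[ℝ] E) : E →ₗ[ℝ] E) := by
      rw [LinearMap.isUnit_iff_ker_eq_bot]
      exact LinearMap.ker_eq_bot.2 hinj
    have := (LinearMap.isUnit_det _ hunit)
    rw [ContinuousLinearMap.det] at h0
    rw [h0] at this
    exact not_isUnit_zero this
  obtain ⟨q, -, hq⟩ := exists_poly A
  have hcont : ContinuousOn (fun s : ℝ => (ContinuousLinearMap.id ℝ E + s • A).det) (Icc 0 1) := by
    simp_rw [hq]
    exact q.continuous.continuousOn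
  by_contra hle
  push Not at hle
  have h1 : (ContinuousLinearMap.id ℝ E + (1:ℝ) • A).det ≤ 0 := by simpa using hle
  have h0 : (ContinuousLinearMap.id ℝ E + (0:ℝ) • A).det = 1 := by
    rw [zero_smul, add_zero, ContinuousLinearMap.det]
    exact LinearMap.det_id
  have := intermediate_value_Icc' (zero_le_one : (0:ℝ) ≤ 1) hcont
  obtain ⟨s, hs, hs0⟩ := this ⟨h1, by rw [h0]; exact zero_le_one⟩
  exact hne s hs hs0

lemma lip (g : E → E) (U : Set E) (hU : IsOpen U) (hKU : closedBall (0:E) 1 ⊆ U)
    (hg : ContDiffOn ℝ 1 g U) :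
    ∃ C : ℝ, 0 < C ∧ (∀ x ∈ closedBall (0:E) 1, ‖fderiv ℝ g x‖ ≤ C) ∧
      ∀ x ∈ closedBall (0:E) 1, ∀ y ∈ closedBall (0:E) 1, ‖g x - g y‖ ≤ C * ‖x - y‖ := by
  have hcont : ContinuousOn (fun x => ‖fderiv ℝ g x‖) (closedBall (0:E) 1) :=
    ((hg.continuousOn_fderiv_of_isOpen hU le_rfl).mono hKU).norm
  obtain ⟨C, hC⟩ := (isCompact_closedBall (0:E) 1).bddAbove_image hcont
  have hb : ∀ x ∈ closedBall (0:E) 1, ‖fderiv ℝ g x‖ ≤ max C 1 := fun x hx =>
    (hC (mem_image_of_mem _ hx)).trans (le_max_left _ _)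
  refine ⟨max C 1, lt_of_lt_of_le one_pos (le_max_right _ _), hb, ?_⟩
  intro x hx y hy
  exact (convex_closedBall (0:E) 1).norm_image_sub_le_of_norm_fderiv_le
    (fun z hz => (hg.contDiffAt (hU.mem_nhds (hKU hz))).differentiableAt one_ne_zero) hb hy hx

/-- There is no `C¹` retraction of the unit ball to the unit sphere. -/
theorem no_C1_retraction (f : E → E) (U : Set E) (hU : IsOpen U) (hKU : closedBall (0:E) 1 ⊆ U)
    (hf : ContDiffOn ℝ 1 f U) (hS : ∀ x ∈ closedBall (0:E) 1, ‖f x‖ = 1)
    (hid : ∀ x ∈ sphere (0:E) 1, f x = x) : False := by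
  classical
  let _ : MeasurableSpace E := borel E
  have _ : BorelSpace E := ⟨rfl⟩
  let μ : Measure E := volume
  set g : E → E := fun x => f x - x with hgdef
  have hg : ContDiffOn ℝ 1 g U := hf.sub contDiffOn_id
  obtain ⟨C, hC0, hCd, hCl⟩ := lip g U hU hKU hg
  have hball : ball (0:E) 1 ⊆ closedBall (0:E) 1 := ball_subset_closedBall
  have hgd : ∀ x ∈ closedBall (0:E) 1, HasStrictFDerivAt g (fderiv ℝ g x) x := fun x hx =>
    (hg.contDiffAt (hU.mem_nhds (hKU hx))).hasStrictFDerivAt one_ne_zero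
  -- the maps `F t`
  let F : ℝ → E → E := fun t x => x + t • g x
  let F' : ℝ → E → (E →L[ℝ] E) := fun t x => ContinuousLinearMap.id ℝ E + t • fderiv ℝ g x
  have hFd : ∀ t, ∀ x ∈ closedBall (0:E) 1, HasStrictFDerivAt (F t) (F' t x) x := by
    intro t x hx
    exact (hasStrictFDerivAt_id x).add ((hgd x hx).const_smul t)
  have hFle : ∀ t, 0 ≤ t → t ≤ 1 → ∀ x ∈ closedBall (0:E) 1, F t x ∈ closedBall (0:E) 1 := by
    intro t h0 h1 x hx
    have : F t x = (1 - t) • x + t • f x := by
      simp only [F, hgdef]; module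
    rw [mem_closedBall_zero_iff] at hx ⊢
    rw [this]
    calc ‖(1 - t) • x + t • f x‖ ≤ ‖(1 - t) • x‖ + ‖t • f x‖ := norm_add_le _ _
      _ = (1 - t) * ‖x‖ + t * 1 := by
          rw [norm_smul, norm_smul, Real.norm_of_nonneg (by linarith), Real.norm_of_nonneg h0,
            hS x (by rwa [mem_closedBall_zero_iff])]
      _ ≤ 1 := by nlinarith [norm_nonneg x]
  have hFs : ∀ t, ∀ x ∈ sphere (0:E) 1, F t x = x := by
    intro t x hx
    simp [F, hgdef, hid x hx]
  have hFc : ∀ t, ContinuousOn (F t) (closedBall (0:E) 1) := fun t x hx =>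
    (hFd t x hx).continuousAt.continuousWithinAt
  -- small `t`
  have hnorm : ∀ t, 0 < t → t < min (1 / C) 1 → ∀ x ∈ closedBall (0:E) 1,
      ‖t • fderiv ℝ g x‖ < 1 := by
    intro t h0 ht x hx
    have h1 : t < 1 / C := lt_of_lt_of_le ht (min_le_left _ _)
    rw [norm_smul, Real.norm_of_nonneg h0.le]
    calc t * ‖fderiv ℝ g x‖ ≤ t * C := by gcongr; exact hCd x hx
      _ < 1 := by rwa [lt_div_iff₀ hC0] at h1
  have hinj : ∀ t, 0 < t → t < min (1 / C) 1 → InjOn (F t) (closedBall (0:E) 1) := by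
    intro t h0 ht x hx y hy hxy
    have h1 : t < 1 / C := lt_of_lt_of_le ht (min_le_left _ _)
    have h2 : x - y = - (t • (g x - g y)) := by
      have : x + t • g x = y + t • g y := hxy
      rw [smul_sub]
      have h3 : x - y = t • g y - t • g x := by
        rw [sub_eq_sub_iff_add_eq_add, this, add_comm]
      rw [h3]; abel
    by_contra hne
    have h3 : 0 < ‖x - y‖ := norm_pos_iff.2 (sub_ne_zero.2 hne)
    have h4 : ‖x - y‖ ≤ t * (C * ‖x - y‖) := by
      calc ‖x - y‖ = ‖t • (g x - g y)‖ := by rw [h2, norm_neg]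
        _ = t * ‖g x - g y‖ := by rw [norm_smul, Real.norm_of_nonneg h0.le]
        _ ≤ t * (C * ‖x - y‖) := by gcongr; exact hCl x hx y hy
    rw [lt_div_iff₀ hC0] at h1
    nlinarith
  have hpos : ∀ t, 0 < t → t < min (1 / C) 1 → ∀ x ∈ closedBall (0:E) 1, 0 < (F' t x).det :=
    fun t h0 ht x hx => det_pos_of_norm_lt _ (hnorm t h0 ht x hx)
  have hopen : ∀ t, 0 < t → t < min (1 / C) 1 → IsOpen (F t '' ball (0:E) 1) := by
    intro t h0 ht
    rw [isOpen_iff_mem_nhds]
    rintro _ ⟨x, hx, rfl⟩
    have hsurj : (F' t x).range = ⊤ := by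
      have hdet := (hpos t h0 ht x (hball hx)).ne'
      have hu : IsUnit ((F' t x : E →L[ℝ] E) : E →ₗ[ℝ] E) := by
        rw [LinearMap.isUnit_iff_isUnit_det]
        exact isUnit_iff_ne_zero.2 hdet
      exact (LinearMap.isUnit_iff_range_eq_top _).1 hu
    rw [← (hFd t x (hball hx)).map_nhds_eq_of_surj hsurj]
    exact Filter.image_mem_map (isOpen_ball.mem_nhds hx)
  have himage : ∀ t, 0 < t → t < min (1 / C) 1 → F t '' ball (0:E) 1 = ball (0:E) 1 := by
    intro t h0 ht
    have ht1 : t ≤ 1 := (lt_of_lt_of_le ht (min_le_right _ _)).le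
    have hsub : F t '' ball (0:E) 1 ⊆ ball (0:E) 1 := by
      have : F t '' ball (0:E) 1 ⊆ interior (closedBall (0:E) 1) := by
        refine interior_maximal ?_ (hopen t h0 ht)
        rintro _ ⟨x, hx, rfl⟩
        exact hFle t h0.le ht1 x (hball hx)
      rwa [interior_closedBall (0:E) one_ne_zero] at this
    refine Subset.antisymm hsub ?_
    refine (convex_ball (0:E) 1).isPreconnected.subset_of_closure_inter_subset
      (hopen t h0 ht) ?_ ?_
    · refine ⟨F t 0, hsub ?_, ?_⟩ <;> exact mem_image_of_mem _ (mem_ball_self one_pos)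
    · rintro y ⟨hy, hyb⟩
      have hK : IsCompact (F t '' closedBall (0:E) 1) :=
        (isCompact_closedBall (0:E) 1).image_of_continuousOn (hFc t)
      have hy2 : y ∈ F t '' closedBall (0:E) 1 :=
        closure_minimal (image_mono hball) hK.isClosed hy
      obtain ⟨x, hx, rfl⟩ := hy2
      by_cases hxs : x ∈ sphere (0:E) 1
      · rw [hFs t x hxs] at hyb
        rw [mem_sphere_zero_iff_norm] at hxs
        rw [mem_ball_zero_iff] at hyb
        exact absurd hyb (by rw [hxs]; exact lt_irrefl _)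
      · refine mem_image_of_mem _ ?_
        rw [mem_ball_zero_iff]
        rw [mem_closedBall_zero_iff] at hx
        rw [mem_sphere_zero_iff_norm] at hxs
        exact lt_of_le_of_ne hx hxs
  -- the integral of the determinant
  have hcontF' : ∀ t, ContinuousOn (fun x => (F' t x).det) (closedBall (0:E) 1) := by
    intro t
    refine ContinuousLinearMap.continuous_det.comp_continuousOn ?_
    have h1 : ContinuousOn (fun x => fderiv ℝ g x) (closedBall (0:E) 1) :=
      (hg.continuousOn_fderiv_of_isOpen hU le_rfl).mono hKU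
    exact continuousOn_const.add (h1.const_smul t)
  have hint : ∀ t, IntegrableOn (fun x => (F' t x).det) (ball (0:E) 1) μ := fun t =>
    ((hcontF' t).integrableOn_compact (isCompact_closedBall (0:E) 1)).mono_set hball
  have hvol : ∀ t, 0 < t → t < min (1 / C) 1 →
      ∫ x in ball (0:E) 1, (F' t x).det ∂μ = (μ (ball (0:E) 1)).toReal := by
    intro t h0 ht
    have h1 := lintegral_abs_det_fderiv_eq_addHaar_image μ (s := ball (0:E) 1) (f := F t)
      (f' := F' t) measurableSet_ball
      (fun x hx => ((hFd t x (hball hx)).hasFDerivAt).hasFDerivWithinAt)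
      ((hinj t h0 ht).mono hball)
    rw [himage t h0 ht] at h1
    rw [integral_eq_lintegral_of_nonneg_ae, ← h1]
    · congr 1
      refine setLIntegral_congr_fun measurableSet_ball fun x hx => ?_
      rw [abs_of_pos (hpos t h0 ht x (hball hx))]
    · refine (ae_restrict_iff' measurableSet_ball).2 (Filter.Eventually.of_forall fun x hx => ?_)
      exact (hpos t h0 ht x (hball hx)).le
    · exact (hint t).aestronglyMeasurable
  -- at `t = 1` the determinant vanishes
  have hone : ∀ x ∈ ball (0:E) 1, (F' 1 x).det = 0 := by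
    intro x hx
    by_contra hdet
    have hu : IsUnit ((F' 1 x : E →L[ℝ] E) : E →ₗ[ℝ] E) := by
      rw [LinearMap.isUnit_iff_isUnit_det]
      exact isUnit_iff_ne_zero.2 hdet
    have hsurj : (F' 1 x).range = ⊤ := (LinearMap.isUnit_iff_range_eq_top _).1 hu
    have hF1 : ∀ y, F 1 y = f y := by
      intro y; simp [F, hgdef]
    have hfd : HasFDerivAt f (F' 1 x) x := by
      have := (hFd 1 x (hball hx)).hasFDerivAt
      rwa [show F 1 = f from funext hF1] at this
    have hin : HasFDerivAt (fun y => ⟪f y, f y⟫) 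
        ((fderivInnerCLM ℝ (f x, f x)).comp ((F' 1 x).prod (F' 1 x))) x := hfd.inner ℝ hfd
    have hconst : (fun y => ⟪f y, f y⟫) =ᶠ[𝓝 x] fun _ => (1:ℝ) := by
      filter_upwards [isOpen_ball.mem_nhds hx] with y hy
      rw [real_inner_self_eq_norm_sq, hS y (hball hy)]; norm_num
    have hz : (fderivInnerCLM ℝ (f x, f x)).comp ((F' 1 x).prod (F' 1 x)) = 0 :=
      (hin.congr_of_eventuallyEq hconst.symm).unique (hasFDerivAt_const (1:ℝ) x)
    have hmem : f x ∈ (F' 1 x).range := by rw [hsurj]; trivial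
    obtain ⟨v, hv⟩ := hmem
    have hv' : F' 1 x v = f x := hv
    have := congrArg (fun L : E →L[ℝ] ℝ => L v) hz
    simp only [ContinuousLinearMap.comp_apply, ContinuousLinearMap.prod_apply,
      fderivInnerCLM_apply, hv', zero_apply] at this
    rw [real_inner_self_eq_norm_sq, hS x (hball hx)] at this
    norm_num at this
  -- conclusion
  obtain ⟨τ, c, hτ, hc, hpoly⟩ := exists_interp (min (1 / C) 1)
    (lt_min (by positivity) one_pos) (Module.finrank ℝ E)
  have hdet : ∀ x, (F' 1 x).det = ∑ i, c i * (F' (τ i) x).det := by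
    intro x
    obtain ⟨q, hq1, hq2⟩ := exists_poly (fderiv ℝ g x)
    have h := hpoly q hq1
    rw [← hq2] at h
    simp_rw [← hq2] at h
    exact h
  have hsum : (0:ℝ) = (μ (ball (0:E) 1)).toReal := by
    calc (0:ℝ) = ∫ x in ball (0:E) 1, (F' 1 x).det ∂μ := by
          rw [setIntegral_congr_fun measurableSet_ball (fun x hx => hone x hx)]
          simp
      _ = ∫ x in ball (0:E) 1, ∑ i, c i * (F' (τ i) x).det ∂μ := by simp_rw [hdet]
      _ = ∑ i, c i * ∫ x in ball (0:E) 1, (F' (τ i) x).det ∂μ := by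
          rw [integral_finsetSum _ (fun i _ => (hint (τ i)).const_mul (c i))]
          simp_rw [integral_const_mul]
      _ = ∑ i, c i * (μ (ball (0:E) 1)).toReal := by
          refine Finset.sum_congr rfl fun i _ => ?_
          rw [hvol (τ i) (hτ i).1 (hτ i).2]
      _ = (μ (ball (0:E) 1)).toReal := by rw [← Finset.sum_mul, hc, one_mul]
  have hpos' : 0 < (μ (ball (0:E) 1)).toReal :=
    ENNReal.toReal_pos (measure_ball_pos μ 0 one_pos).ne' measure_ball_lt_top.ne
  linarith

end

end Pool.Agent.H75.Brouwer
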